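import Pool.Agent.J6H29.ST.Stm

/-!
# ST-PUR: powers of a matrix with a rational, pure characteristic polynomial
-/

set_option autoImplicit false

namespace Pool.Agent.J6H68.ST.Pur

open Module Polynomial

/-- the eigenvalues of the powers -/
theorem spec_nat {n : ℕ} (B : GL (Fin n) ℂ) (Q : ℝ)
    (hB : ∀ z ∈ spectrum ℂ (B : Matrix (Fin n) (Fin n) ℂ), ‖z‖ ^ 2 = Q) (k : ℕ) :
    ∀ z ∈ spectrum ℂ ((B ^ k : GL (Fin n) ℂ) : Matrix (Fin n) (Fin n) ℂ), ‖z‖ ^ 2 = Q ^ k := by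
  intro z hz
  rw [Units.val_pow_eq_pow_val] at hz
  rcases Nat.eq_zero_or_pos k with rfl | hk
  · rw [pow_zero] at hz ⊢
    have h1 : z = 1 := by
      by_contra hne
      apply hz
      rw [spectrum.mem_resolventSet_iff, show algebraMap ℂ (Matrix (Fin n) (Fin n) ℂ) z - 1 =
        algebraMap ℂ (Matrix (Fin n) (Fin n) ℂ) (z - 1) by rw [map_sub, map_one]]
      exact (isUnit_iff_ne_zero.2 (sub_ne_zero.2 hne)).map _
    rw [h1, norm_one, one_pow]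
  · rw [spectrum.map_pow_of_pos (𝕜 := ℂ) _ hk] at hz
    obtain ⟨y, hy, rfl⟩ := hz
    rw [norm_pow, ← pow_mul, mul_comm, pow_mul, hB y hy]

theorem spec_int {n : ℕ} (B : GL (Fin n) ℂ) (Q : ℝ)
    (hB : ∀ z ∈ spectrum ℂ (B : Matrix (Fin n) (Fin n) ℂ), ‖z‖ ^ 2 = Q) (j : ℤ) :
    ∀ z ∈ spectrum ℂ ((B ^ j : GL (Fin n) ℂ) : Matrix (Fin n) (Fin n) ℂ), ‖z‖ ^ 2 = Q ^ j := by
  intro z hz
  rcases Int.eq_nat_or_neg j with ⟨k, rfl | rfl⟩
  · rw [zpow_natCast] at hz ⊢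
    exact spec_nat B Q hB k z hz
  · rw [zpow_neg, zpow_natCast] at hz ⊢
    rw [← spectrum.map_inv] at hz
    have h1 := spec_nat B Q hB k z⁻¹ hz
    rw [norm_inv, inv_pow] at h1
    rw [← h1, inv_inv]

/-- a bound for the trace -/
theorem trace_bound {n : ℕ} (C : Matrix (Fin n) (Fin n) ℂ) (r : ℝ)
    (hC : ∀ z ∈ spectrum ℂ C, ‖z‖ ^ 2 = r) : ‖C.trace‖ ^ 2 ≤ (n : ℝ) ^ 2 * r := by
  rcases Nat.eq_zero_or_pos n with rfl | hn
  · simp [Matrix.trace]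
  have hcard : (Matrix.charpoly C).roots.card = n := by
    rw [← (IsAlgClosed.splits (Matrix.charpoly C)).natDegree_eq_card_roots,
      Matrix.charpoly_natDegree_eq_dim, Fintype.card_fin]
  have hne : (Matrix.charpoly C).roots ≠ 0 := by
    intro h
    rw [h, Multiset.card_zero] at hcard
    omega
  have hroot : ∀ z ∈ (Matrix.charpoly C).roots, ‖z‖ ^ 2 = r := by
    intro z hz
    exact hC z (Matrix.mem_spectrum_iff_isRoot_charpoly.2 (isRoot_of_mem_roots hz))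
  obtain ⟨z₀, hz₀⟩ := Multiset.exists_mem_of_ne_zero hne
  have hr : 0 ≤ r := by
    rw [← hroot z₀ hz₀]
    positivity
  have h1 : ‖C.trace‖ ≤ n * Real.sqrt r := by
    rw [Matrix.trace_eq_sum_roots_charpoly C]
    refine (norm_multiset_sum_le _).trans ?_
    have h2 : ∀ x ∈ (Matrix.charpoly C).roots.map (fun z => ‖z‖), x ≤ Real.sqrt r := by
      intro x hx
      obtain ⟨z, hz, rfl⟩ := Multiset.mem_map.1 hx
      rw [← hroot z hz, Real.sqrt_sq (norm_nonneg z)]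
    refine (Multiset.sum_le_card_nsmul _ _ h2).trans ?_
    rw [Multiset.card_map, nsmul_eq_mul, hcard]
  calc ‖C.trace‖ ^ 2 ≤ (n * Real.sqrt r) ^ 2 := by
        exact pow_le_pow_left₀ (norm_nonneg _) h1 2
    _ = (n : ℝ) ^ 2 * r := by rw [mul_pow, Real.sq_sqrt hr]

theorem main : Pool.Agent.J6H29.ST.S_Pur := by
  intro ℓ _ n A h hA Q hQ hr e
  constructor
  · intro j
    rw [Units.val_pow_eq_pow_val]
    rcases j with _ | k
    · exact ⟨n, by rw [pow_zero, Matrix.trace_one, Fintype.card_fin, Rat.cast_natCast]⟩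
    · exact ⟨_, Pool.Agent.R401.Tr10.trace_eq_tn _ _
        (Pool.Agent.R401.Tr10.coeff_rev _ h hA) k⟩
  · intro j
    set B : GL (Fin n) ℂ := Units.map (e.mapMatrix : Matrix (Fin n) (Fin n) ℚ_[ℓ] →+*
      Matrix (Fin n) (Fin n) ℂ).toMonoidHom A with hB
    have h1 : ∀ z ∈ spectrum ℂ (B : Matrix (Fin n) (Fin n) ℂ), ‖z‖ ^ 2 = Q :=
      Pool.Agent.R401.Tr10.pure _ h hA Q hr e
    have h2 : ((B ^ j : GL (Fin n) ℂ) : Matrix (Fin n) (Fin n) ℂ) =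
        ((A ^ j : GL (Fin n) ℚ_[ℓ]) : Matrix (Fin n) (Fin n) ℚ_[ℓ]).map e := by
      rw [hB, ← map_zpow]
      rfl
    have h3 : e (((A ^ j : GL (Fin n) ℚ_[ℓ]) : Matrix (Fin n) (Fin n) ℚ_[ℓ]).trace) =
        ((B ^ j : GL (Fin n) ℂ) : Matrix (Fin n) (Fin n) ℂ).trace := by
      rw [h2]
      exact AddMonoidHom.map_trace (e : ℚ_[ℓ] →+ ℂ) _
    rw [h3]
    exact trace_bound _ _ (spec_int B Q h1 j)

end Pool.Agent.J6H68.ST.Pur
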